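import Mathlib

set_option autoImplicit false

namespace Pool.Agent.Results.MP_78fb5d_an.FractionalVertex

/-- For every positive multiple `M` of `24` there are a set `E` in `Z_M` that tiles `Z_M`, and a non-negative weak
tiling measure `μ` for `E` with `μ 0 = 1`, such that no tiling complement of `E` is contained in the support of
`μ`; in particular `μ` is not a convex combination of the counting measures of tiling complements of `E`. -/
theorem result (M : ℕ) [NeZero M] (h24 : 24 ∣ M) :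
    ∃ (E : Finset (ZMod M)) (μ : ZMod M → ℝ),
      (∃ T : Set (ZMod M), ∀ x, ∃! p : ZMod M × ZMod M, p.1 ∈ E ∧ p.2 ∈ T ∧ p.1 + p.2 = x) ∧
      (∀ x, 0 ≤ μ x) ∧ μ 0 = 1 ∧
      (∀ x, ∑ y, (E : Set (ZMod M)).indicator (fun _ => (1 : ℝ)) (x - y) * μ y = 1) ∧
      (∀ T : Set (ZMod M), (∀ x, ∃! p : ZMod M × ZMod M, p.1 ∈ E ∧ p.2 ∈ T ∧ p.1 + p.2 = x) →
        ∃ t ∈ T, μ t = 0) ∧
      ¬ ∃ (N : ℕ) (c : Fin N → ℝ) (T : Fin N → Set (ZMod M)),
          (∀ k, 0 ≤ c k) ∧ ∑ k, c k = 1 ∧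
          (∀ k x, ∃! p : ZMod M × ZMod M, p.1 ∈ E ∧ p.2 ∈ T k ∧ p.1 + p.2 = x) ∧
          (∀ x, μ x = ∑ k, c k * (T k).indicator (fun _ => (1 : ℝ)) x) := by
  classical
  set φ : ZMod M →+* ZMod 24 := ZMod.castHom h24 (ZMod 24) with hφ
  set E : Finset (ZMod M) := {0, 4, 6, 10} with hE
  -- twice the measure, with natural values
  let w : ZMod 24 → ℕ := fun z => if z ∈ ({0, 8, 16} : Finset (ZMod 24)) then 2 else
    if z ∈ ({1, 9, 11, 13, 21, 23} : Finset (ZMod 24)) then 1 else 0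
  let μ : ZMod M → ℝ := fun x => (w (φ x) : ℝ) / 2
  have φ4 : φ 4 = 4 := map_ofNat φ 4
  have φ6 : φ 6 = 6 := map_ofNat φ 6
  have φ10 : φ 10 = 10 := map_ofNat φ 10
  have n04 : (0 : ZMod M) ≠ 4 := fun h => by
    have := congrArg φ h; rw [map_zero, φ4] at this; revert this; decide
  have n06 : (0 : ZMod M) ≠ 6 := fun h => by
    have := congrArg φ h; rw [map_zero, φ6] at this; revert this; decide
  have n010 : (0 : ZMod M) ≠ 10 := fun h => by
    have := congrArg φ h; rw [map_zero, φ10] at this; revert this; decide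
  have n46 : (4 : ZMod M) ≠ 6 := fun h => by
    have := congrArg φ h; rw [φ4, φ6] at this; revert this; decide
  have n410 : (4 : ZMod M) ≠ 10 := fun h => by
    have := congrArg φ h; rw [φ4, φ10] at this; revert this; decide
  have n610 : (6 : ZMod M) ≠ 10 := fun h => by
    have := congrArg φ h; rw [φ6, φ10] at this; revert this; decide
  have memE : ∀ e : ZMod M, e ∈ E ↔ e = 0 ∨ e = 4 ∨ e = 6 ∨ e = 10 := by
    intro e; simp [hE]
  have key : ∀ T : Set (ZMod M), (∀ x, ∃! p : ZMod M × ZMod M, p.1 ∈ E ∧ p.2 ∈ T ∧ p.1 + p.2 = x) →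
        ∃ t ∈ T, μ t = 0 := by
    intro T hT
    by_contra hcon
    push Not at hcon
    -- elements of T have residues in the support
    have hsupp : ∀ t ∈ T, w (φ t) ≠ 0 := by
      intro t ht h0
      apply hcon t ht
      show ((w (φ t) : ℕ) : ℝ) / 2 = 0
      rw [h0]; simp
    have hnot : ∀ t : ZMod M, w (φ t) = 0 → t ∉ T := fun t h0 ht => hsupp t ht h0
    have φ1 : φ 1 = 1 := map_one φ
    have φ3 : φ 3 = 3 := map_ofNat φ 3
    have φ5 : φ 5 = 5 := map_ofNat φ 5
    -- uniqueness and existence at 1, 3, 5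
    have un : ∀ (x e t e' t' : ZMod M), e ∈ E → t ∈ T → e + t = x → e' ∈ E → t' ∈ T → e' + t' = x → e = e' := by
      intro x e t e' t' he ht hx he' ht' hx'
      obtain ⟨p, -, hp⟩ := hT x
      have h1 := hp (e, t) ⟨he, ht, hx⟩
      have h2 := hp (e', t') ⟨he', ht', hx'⟩
      have := h1.trans h2.symm
      exact congrArg Prod.fst this
    have ex : ∀ x : ZMod M, (x ∈ T ∨ x - 4 ∈ T ∨ x - 6 ∈ T ∨ x - 10 ∈ T) := by
      intro x
      obtain ⟨p, ⟨h1, h2, h3⟩, -⟩ := hT x
      rcases (memE _).1 h1 with h | h | h | h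
      · left; rw [← h3, h, zero_add]; exact h2
      · right; left; rw [← h3, h, add_sub_cancel_left]; exact h2
      · right; right; left; rw [← h3, h, add_sub_cancel_left]; exact h2
      · right; right; right; rw [← h3, h, add_sub_cancel_left]; exact h2
    -- equation at 1
    have e1 : (1 : ZMod M) ∈ T ∨ (-3 : ZMod M) ∈ T := by
      rcases ex 1 with h | h | h | h
      · exact Or.inl h
      · right; convert h using 1; ring
      · exact absurd h (hnot _ (by rw [map_sub, φ1, φ6]; decide))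
      · exact absurd h (hnot _ (by rw [map_sub, φ1, φ10]; decide))
    have e1' : ¬ ((1 : ZMod M) ∈ T ∧ (-3 : ZMod M) ∈ T) := by
      rintro ⟨h, h'⟩
      exact n04 (un 1 0 1 4 (-3) ((memE _).2 (Or.inl rfl)) h (by ring) ((memE _).2 (by simp)) h' (by ring))
    have e3 : (-1 : ZMod M) ∈ T ∨ (-3 : ZMod M) ∈ T := by
      rcases ex 3 with h | h | h | h
      · exact absurd h (hnot _ (by rw [φ3]; decide))
      · left; convert h using 1; ring
      · right; convert h using 1; ring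
      · exact absurd h (hnot _ (by rw [map_sub, φ3, φ10]; decide))
    have e3' : ¬ ((-1 : ZMod M) ∈ T ∧ (-3 : ZMod M) ∈ T) := by
      rintro ⟨h, h'⟩
      exact n46 (un 3 4 (-1) 6 (-3) ((memE _).2 (by simp)) h (by ring) ((memE _).2 (by simp)) h' (by ring))
    have e5 : (1 : ZMod M) ∈ T ∨ (-1 : ZMod M) ∈ T := by
      rcases ex 5 with h | h | h | h
      · exact absurd h (hnot _ (by rw [φ5]; decide))
      · left; convert h using 1; ring
      · right; convert h using 1; ring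
      · exact absurd h (hnot _ (by rw [map_sub, φ5, φ10]; decide))
    have e5' : ¬ ((1 : ZMod M) ∈ T ∧ (-1 : ZMod M) ∈ T) := by
      rintro ⟨h, h'⟩
      exact n46 (un 5 4 1 6 (-1) ((memE _).2 (by simp)) h (by ring) ((memE _).2 (by simp)) h' (by ring))
    tauto
  refine ⟨E, μ, ?_, ?_, ?_, ?_, key, ?_⟩
  · -- a tiling complement
    let T24 : Finset (ZMod 24) := {0, 1, 8, 9, 16, 17}
    refine ⟨{t | φ t ∈ T24}, fun x => ?_⟩
    have hex : ∀ z : ZMod 24, z ∈ T24 ∨ z - 4 ∈ T24 ∨ z - 6 ∈ T24 ∨ z - 10 ∈ T24 := by decide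
    have hun : ∀ z : ZMod 24, ¬ (z ∈ T24 ∧ z - 4 ∈ T24) ∧ ¬ (z ∈ T24 ∧ z - 6 ∈ T24) ∧
        ¬ (z ∈ T24 ∧ z - 10 ∈ T24) ∧ ¬ (z - 4 ∈ T24 ∧ z - 6 ∈ T24) ∧ ¬ (z - 4 ∈ T24 ∧ z - 10 ∈ T24) ∧
        ¬ (z - 6 ∈ T24 ∧ z - 10 ∈ T24) := by decide
    have cond : ∀ e t : ZMod M, e + t = x → φ t ∈ T24 → φ x - φ e ∈ T24 := by
      intro e t h ht
      have : φ x - φ e = φ t := by rw [← h, map_add]; ring
      rw [this]; exact ht
    obtain ⟨u1, u2, u3, u4, u5, u6⟩ := hun (φ x)
    have uniq : ∀ e t e' t' : ZMod M, e ∈ E → φ t ∈ T24 → e + t = x → e' ∈ E → φ t' ∈ T24 → e' + t' = x →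
        e = e' := by
      intro e t e' t' he ht hx he' ht' hx'
      have c1 := cond e t hx ht
      have c2 := cond e' t' hx' ht'
      rcases (memE _).1 he with rfl | rfl | rfl | rfl <;>
      rcases (memE _).1 he' with rfl | rfl | rfl | rfl <;>
      first
        | rfl
        | (exfalso
           simp only [map_zero, φ4, φ6, φ10, sub_zero] at c1 c2
           first
             | exact u1 ⟨c1, c2⟩ | exact u1 ⟨c2, c1⟩ | exact u2 ⟨c1, c2⟩ | exact u2 ⟨c2, c1⟩
             | exact u3 ⟨c1, c2⟩ | exact u3 ⟨c2, c1⟩ | exact u4 ⟨c1, c2⟩ | exact u4 ⟨c2, c1⟩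
             | exact u5 ⟨c1, c2⟩ | exact u5 ⟨c2, c1⟩ | exact u6 ⟨c1, c2⟩ | exact u6 ⟨c2, c1⟩)
    have exi : ∃ e ∈ E, φ (x - e) ∈ T24 := by
      rcases hex (φ x) with h | h | h | h
      · exact ⟨0, (memE _).2 (by simp), by rw [map_sub, map_zero, sub_zero]; exact h⟩
      · exact ⟨4, (memE _).2 (by simp), by rw [map_sub, φ4]; exact h⟩
      · exact ⟨6, (memE _).2 (by simp), by rw [map_sub, φ6]; exact h⟩
      · exact ⟨10, (memE _).2 (by simp), by rw [map_sub, φ10]; exact h⟩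
    obtain ⟨e, he, ht⟩ := exi
    refine ⟨(e, x - e), ⟨he, ht, by simp⟩, ?_⟩
    rintro ⟨e', t'⟩ ⟨he', ht', hx'⟩
    have h1 : e' = e := uniq e' t' e (x - e) he' ht' hx' he ht (by ring)
    subst h1
    simp only at hx'
    rw [Prod.mk.injEq]
    exact ⟨rfl, by rw [← hx']; ring⟩
  · intro x
    show 0 ≤ ((w (φ x) : ℕ) : ℝ) / 2
    positivity
  · show ((w (φ 0) : ℕ) : ℝ) / 2 = 1
    have : w (φ 0) = 2 := by rw [map_zero]; decide
    rw [this]; norm_num
  · intro x
    have h1 : ∑ y, (E : Set (ZMod M)).indicator (fun _ => (1 : ℝ)) (x - y) * μ y = ∑ e ∈ E, μ (x - e) := by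
      rw [← Equiv.sum_comp (Equiv.subLeft x)
        (fun y => (E : Set (ZMod M)).indicator (fun _ => (1 : ℝ)) (x - y) * μ y)]
      simp only [Equiv.subLeft_apply, sub_sub_cancel]
      rw [← Finset.sum_subset (Finset.subset_univ E)]
      · refine Finset.sum_congr rfl fun e he => ?_
        rw [Set.indicator_of_mem (by exact_mod_cast he), one_mul]
      · intro e _ he
        rw [Set.indicator_of_notMem (by exact_mod_cast he), zero_mul]
    rw [h1]
    have h2 : ∑ e ∈ E, μ (x - e) = μ (x - 0) + (μ (x - 4) + (μ (x - 6) + μ (x - 10))) := by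
      rw [hE, Finset.sum_insert (by simp [n04, n06, n010]), Finset.sum_insert (by simp [n46, n410]),
        Finset.sum_insert (by simp [n610]), Finset.sum_singleton]
    rw [h2]
    have h3 : ∀ z : ZMod 24, w z + (w (z - 4) + (w (z - 6) + w (z - 10))) = 2 := by decide
    have h4 := h3 (φ x)
    have h5 : ∀ e : ZMod M, μ (x - e) = (w (φ x - φ e) : ℝ) / 2 := by
      intro e
      show ((w (φ (x - e)) : ℕ) : ℝ) / 2 = _
      rw [map_sub]
    rw [h5, h5, h5, h5, map_zero, φ4, φ6, φ10, sub_zero]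
    have h6 : ((w (φ x) + (w (φ x - 4) + (w (φ x - 6) + w (φ x - 10))) : ℕ) : ℝ) = 2 := by
      rw [h4]; norm_num
    push_cast at h6
    linarith
  · rintro ⟨N, c, T, hc, hsum, hT, hμ⟩
    have : ∃ k, 0 < c k := by
      by_contra hcon
      push Not at hcon
      have : ∑ k, c k ≤ 0 := Finset.sum_nonpos fun k _ => hcon k
      linarith
    obtain ⟨k, hk⟩ := this
    obtain ⟨t, ht, h0⟩ := key (T k) (hT k)
    have h1 := hμ t
    rw [h0] at h1
    have h2 : c k * (T k).indicator (fun _ => (1 : ℝ)) t ≤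
        ∑ k, c k * (T k).indicator (fun _ => (1 : ℝ)) t := by
      refine Finset.single_le_sum (f := fun k => c k * (T k).indicator (fun _ => (1 : ℝ)) t) ?_ (Finset.mem_univ k)
      intro i _
      exact mul_nonneg (hc i) (Set.indicator_nonneg (fun _ _ => zero_le_one) _)
    rw [← h1, Set.indicator_of_mem ht, mul_one] at h2
    linarith

end Pool.Agent.Results.MP_78fb5d_an.FractionalVertex
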